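import Mathlib
import Pool.Agent.Q2N.Stmts

/-! # WINP: the windows in type (+) -/

set_option autoImplicit false

open Module

namespace Pool.Agent.Q2N.H32

open Pool.Agent.UW

section weights

/-- the weight -/
def om (c : ℕ) (t : ℤ) : ℕ := if -(c : ℤ) ≤ t then min (t + c + 1).toNat (2 * c + 2) else 0

theorem om_pos {c : ℕ} {t : ℤ} (h : om c t ≠ 0) : -(c : ℤ) ≤ t := by
  by_contra h'
  exact h (if_neg h')

theorem om_one {c : ℕ} {t j : ℤ} :
    (if t ∈ Finset.Icc (-(c : ℤ)) (j + c) then 1 else 0) ≤ om c t := by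
  split_ifs with h
  · rw [Finset.mem_Icc] at h
    rw [om, if_pos h.1]
    lia
  · exact Nat.zero_le _

theorem om_step {c : ℕ} {t i : ℤ} (hi : 1 ≤ i) :
    (if t ∈ Finset.Icc (-(c : ℤ)) (i + c) then 1 else 0) + om c (t - i) ≤ om c t := by
  unfold om
  split_ifs with h1 h2 h3 h4 h5 h6 <;> (try rw [Finset.mem_Icc] at h1) <;> lia

end weights

variable {F K : Type} [Field F] [Field K] [Algebra F K]

theorem zpow_inj (S : Dat F K) (p : S.X) : Function.Injective (fun t : ℤ => (S.τ ^ t) p) := by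
  intro a b hab
  have h1 : (S.τ ^ (-b)) ((S.τ ^ a) p) = (S.τ ^ (-b)) ((S.τ ^ b) p) := congrArg _ hab
  rw [← Equiv.Perm.mul_apply, ← Equiv.Perm.mul_apply, ← zpow_add, ← zpow_add, neg_add_cancel,
    zpow_zero, Equiv.Perm.one_apply] at h1
  have h2 := S.free p _ h1
  lia

theorem supp_fin (S : Dat F K) {m : S.X → ℕ} (hm : {p | m p ≠ 0}.Finite) (p : S.X) :
    {t : ℤ | m ((S.τ ^ t) p) ≠ 0}.Finite :=
  hm.preimage (f := fun t : ℤ => (S.τ ^ t) p) (zpow_inj S p).injOn

/-- the bound -/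
noncomputable def BB (S : Dat F K) (m : S.X → ℕ) (c : ℕ) (p : S.X) : ℕ :=
  ∑ᶠ t : ℤ, om c t * m ((S.τ ^ t) p)

theorem BB_eq (S : Dat F K) {m : S.X → ℕ} (hm : {p | m p ≠ 0}.Finite) (c : ℕ) (p : S.X) :
    BB S m c p = ∑ t ∈ (supp_fin S hm p).toFinset, om c t * m ((S.τ ^ t) p) := by
  unfold BB
  apply finsum_eq_sum_of_support_subset
  intro t ht
  rw [Set.Finite.coe_toFinset]
  exact right_ne_zero_of_mul ht

theorem BB_shift (S : Dat F K) {m : S.X → ℕ} (hm : {p | m p ≠ 0}.Finite) (c : ℕ) (p : S.X)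
    (i : ℤ) : BB S m c ((S.τ ^ i) p) =
      ∑ t ∈ (supp_fin S hm p).toFinset, om c (t - i) * m ((S.τ ^ t) p) := by
  unfold BB
  rw [← finsum_comp_equiv (Equiv.subRight i)]
  have h1 : ∀ t : ℤ, om c (Equiv.subRight i t) * m ((S.τ ^ (Equiv.subRight i t)) ((S.τ ^ i) p)) =
      om c (t - i) * m ((S.τ ^ t) p) := by
    intro t
    rw [Equiv.subRight_apply, ← Equiv.Perm.mul_apply, ← zpow_add, sub_add_cancel]
  rw [finsum_congr h1]
  apply finsum_eq_sum_of_support_subset
  intro t ht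
  rw [Set.Finite.coe_toFinset]
  exact right_ne_zero_of_mul ht

theorem sum_Icc_eq (S : Dat F K) {m : S.X → ℕ} (hm : {p | m p ≠ 0}.Finite) (a b : ℤ) (p : S.X) :
    ∑ s ∈ Finset.Icc a b, m ((S.τ ^ s) p) =
      ∑ t ∈ (supp_fin S hm p).toFinset, (if t ∈ Finset.Icc a b then 1 else 0) *
        m ((S.τ ^ t) p) := by
  classical
  rw [← finsum_mem_coe_finset, ← finsum_eq_sum_of_support_subset, finsum_mem_def]
  · refine finsum_congr fun t => ?_
    by_cases h : t ∈ Finset.Icc a b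
    · rw [if_pos h, one_mul, Set.indicator_of_mem (Finset.mem_coe.2 h)]
    · rw [if_neg h, zero_mul, Set.indicator_of_notMem (fun h' => h (Finset.mem_coe.1 h'))]
  · intro t ht
    rw [Set.Finite.coe_toFinset]
    exact right_ne_zero_of_mul ht

theorem BB_one (S : Dat F K) {m : S.X → ℕ} (hm : {p | m p ≠ 0}.Finite) (c : ℕ) (p : S.X)
    (j : ℤ) : ∑ s ∈ Finset.Icc (-(c : ℤ)) (j + c), m ((S.τ ^ s) p) ≤ BB S m c p := by
  rw [sum_Icc_eq S hm, BB_eq S hm]
  exact Finset.sum_le_sum fun t _ => Nat.mul_le_mul_right _ om_one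

theorem BB_step (S : Dat F K) {m : S.X → ℕ} (hm : {p | m p ≠ 0}.Finite) (c : ℕ) (p : S.X)
    {i : ℤ} (hi : 1 ≤ i) : ∑ s ∈ Finset.Icc (-(c : ℤ)) (i + c), m ((S.τ ^ s) p) +
      BB S m c ((S.τ ^ i) p) ≤ BB S m c p := by
  rw [BB_shift S hm, sum_Icc_eq S hm, BB_eq S hm, ← Finset.sum_add_distrib]
  refine Finset.sum_le_sum fun t _ => ?_
  rw [← add_mul]
  exact Nat.mul_le_mul_right _ (om_step hi)

theorem BB_fwd (S : Dat F K) {m : S.X → ℕ} (hm : {p | m p ≠ 0}.Finite) (c : ℕ) :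
    Fwd S (BB S m c) := by
  refine ⟨{p | m p ≠ 0}, c, hm, ?_⟩
  intro p hp
  rw [BB_eq S hm] at hp
  obtain ⟨t, -, ht⟩ := Finset.exists_ne_zero_of_sum_ne_zero hp
  exact ⟨t, om_pos (left_ne_zero_of_mul ht), right_ne_zero_of_mul ht⟩

/-! ## The property of the words -/

/-- the property -/
def TT (S : Dat F K) (m : S.X → ℕ) (c : ℕ) (u : SkewLaurent K S.σ) : Prop :=
  (∀ j < 0, u.coeff j = 0) ∧ (∀ p, 0 ≤ S.v p (u.coeff 0)) ∧
    ∀ j : ℤ, 1 ≤ j → ∀ p, ng (BB S m c p) ≤ S.v p (u.coeff j)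

theorem TT_one (S : Dat F K) (m : S.X → ℕ) (c : ℕ) : TT S m c 1 := by
  refine ⟨fun j hj => ?_, fun p => ?_, fun j hj p => ?_⟩
  · rw [SkewLaurent.coeff_one, if_neg hj.ne]
  · rw [SkewLaurent.coeff_one, if_pos rfl, AddValuation.map_one]
  · rw [SkewLaurent.coeff_one, if_neg (by lia), AddValuation.map_zero]
    exact le_top

theorem TT_zero (S : Dat F K) (m : S.X → ℕ) (c : ℕ) : TT S m c 0 := by
  refine ⟨fun j hj => rfl, fun p => ?_, fun j hj p => ?_⟩
  · rw [SkewLaurent.coeff_zero, AddValuation.map_zero]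
    exact le_top
  · rw [SkewLaurent.coeff_zero, AddValuation.map_zero]
    exact le_top

theorem TT_add (S : Dat F K) (m : S.X → ℕ) (c : ℕ) {u w : SkewLaurent K S.σ} (hu : TT S m c u)
    (hw : TT S m c w) : TT S m c (u + w) := by
  refine ⟨fun j hj => ?_, fun p => ?_, fun j hj p => ?_⟩
  · rw [SkewLaurent.coeff_add, hu.1 j hj, hw.1 j hj, add_zero]
  · rw [SkewLaurent.coeff_add]
    exact (S.v p).map_le_add (hu.2.1 p) (hw.2.1 p)
  · rw [SkewLaurent.coeff_add]
    exact (S.v p).map_le_add (hu.2.2 j hj p) (hw.2.2 j hj p)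

theorem v_const_nonneg (S : Dat F K) (p : S.X) (c : F) : 0 ≤ S.v p (algebraMap F K c) := by
  by_cases h : c = 0
  · rw [h, map_zero, AddValuation.map_zero]
    exact le_top
  · rw [S.v_const p c h]

theorem TT_const (S : Dat F K) (m : S.X → ℕ) (c : ℕ) (a : F) {u : SkewLaurent K S.σ}
    (hu : TT S m c u) : TT S m c (sgl S.σ (algebraMap F K a) 0 * u) := by
  have h0 : ∀ j, (sgl S.σ (algebraMap F K a) 0 * u).coeff j = algebraMap F K a * u.coeff j := by
    intro j
    rw [sgl_mul_coeff, zpow_zero, sub_zero]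
    rfl
  refine ⟨fun j hj => ?_, fun p => ?_, fun j hj p => ?_⟩
  · rw [h0, hu.1 j hj, mul_zero]
  · rw [h0, AddValuation.map_mul]
    exact add_nonneg (v_const_nonneg S p a) (hu.2.1 p)
  · rw [h0, AddValuation.map_mul]
    refine (hu.2.2 j hj p).trans ?_
    exact le_add_of_nonneg_left (v_const_nonneg S p a)

theorem TT_mul (S : Dat F K) {m : S.X → ℕ} (hm : {p | m p ≠ 0}.Finite) (c : ℕ)
    {w u : SkewLaurent K S.σ} (hw1 : ∀ j < 1, w.coeff j = 0) (hw : Win S m c w)
    (hu : TT S m c u) : TT S m c (w * u) := by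
  have hP : w * u ∈ SkewLaurent.P K S.σ (1 + 0) := SkewLaurent.mul_mem_P hw1 hu.1
  rw [add_zero] at hP
  refine ⟨fun j hj => hP j (by lia), fun p => ?_, fun j hj p => ?_⟩
  · rw [hP 0 (by lia), AddValuation.map_zero]
    exact le_top
  · rw [SkewLaurent.coeff_mul]
    refine finsum_induction (fun z => ng (BB S m c p) ≤ S.v p z) ?_ ?_ ?_
    · rw [AddValuation.map_zero]
      exact le_top
    · intro x y hx hy
      exact (S.v p).map_le_add hx hy
    · intro i
      rcases lt_or_ge i 1 with hi | hi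
      · rw [hw1 i hi, zero_mul, AddValuation.map_zero]
        exact le_top
      rcases lt_trichotomy i j with hij | hij | hij
      · rw [AddValuation.map_mul, v_σ_zpow]
        have h1 := hw i p
        have h2 := hu.2.2 (j - i) (by lia) ((S.τ ^ i) p)
        refine le_trans ?_ (add_le_add h1 h2)
        rw [ng, ng, ← WithTop.coe_add, WithTop.coe_le_coe]
        have h3 := BB_step S hm c p hi
        have h4 : ((∑ s ∈ Finset.Icc (-(c : ℤ)) (i + c), m ((S.τ ^ s) p) : ℕ) : ℤ) =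
            ∑ s ∈ Finset.Icc (-(c : ℤ)) (i + c), (m ((S.τ ^ s) p) : ℤ) := by push_cast; rfl
        rw [← h4]
        lia
      · rw [AddValuation.map_mul, v_σ_zpow, hij, sub_self]
        have h1 := hw j p
        have h2 := hu.2.1 ((S.τ ^ j) p)
        refine le_trans ?_ (add_le_add h1 h2)
        rw [ng, add_zero, WithTop.coe_le_coe]
        have h3 := BB_one S hm c p j
        have h4 : ((∑ s ∈ Finset.Icc (-(c : ℤ)) (j + c), m ((S.τ ^ s) p) : ℕ) : ℤ) =
            ∑ s ∈ Finset.Icc (-(c : ℤ)) (j + c), (m ((S.τ ^ s) p) : ℤ) := by push_cast; rfl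
        rw [← h4]
        lia
      · rw [hu.1 (j - i) (by lia), map_zero, mul_zero, AddValuation.map_zero]
        exact le_top

theorem Win_mono (S : Dat F K) {m m' : S.X → ℕ} {c c' : ℕ} (hm : ∀ p, m p ≤ m' p) (hc : c ≤ c')
    {u : SkewLaurent K S.σ} (h : Win S m c u) : Win S m' c' u := by
  intro j p
  refine le_trans ?_ (h j p)
  rw [WithTop.coe_le_coe, neg_le_neg_iff]
  refine (Finset.sum_le_sum fun s _ => Int.ofNat_le.2 (hm _)).trans ?_
  refine Finset.sum_le_sum_of_subset_of_nonneg ?_ (fun _ _ _ => Int.natCast_nonneg _)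
  exact Finset.Icc_subset_Icc (by lia) (by lia)

theorem winp : WinpStmt := by
  classical
  intro basew F K _ _ _ S D _ _ E A hA hPos
  obtain ⟨G, hG⟩ := hA
  have hGA : ∀ g ∈ G, g ∈ A := fun g hg => by
    rw [← hG]
    exact Algebra.subset_adjoin hg
  -- the residues
  have hr : ∀ x : D, ∃ a : F, x ∈ A → (E.χ x).coeff 0 = algebraMap F K a := by
    intro x
    by_cases hx : x ∈ A
    · obtain ⟨a, ha⟩ := (hPos x hx).2
      exact ⟨a, fun _ => ha⟩
    · exact ⟨0, fun h => absurd h hx⟩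
  choose r hr using hr
  let gen : D → D := fun x => x - algebraMap F D (r x)
  have hχ : ∀ x, E.χ (gen x) = E.χ x - sgl S.σ (algebraMap F K (r x)) 0 := by
    intro x
    rw [map_sub, E.const]
  have hord : ∀ g ∈ G, ∀ j < 1, (E.χ (gen g)).coeff j = 0 := by
    intro g hg j hj
    rw [hχ, SkewLaurent.coeff_sub, sgl_coeff]
    rcases (by lia : j < 0 ∨ j = 0) with h | h
    · rw [(hPos g (hGA g hg)).1 j h, if_neg h.ne, sub_zero]
    · rw [h, if_pos rfl, hr g (hGA g hg), sub_self]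
  -- the windows
  have hwin : ∀ x : D, ∃ (m : S.X → ℕ) (c : ℕ), {p | m p ≠ 0}.Finite ∧
      Win S m c (E.χ (gen x)) := by
    intro x
    obtain ⟨P, Q, h1, h2, h3, h4⟩ := E.rat (gen x)
    exact basew F K S (E.χ (gen x)) P Q h1 h2 h3 h4
  choose mm cc hfin hwin using hwin
  let m : S.X → ℕ := fun p => ∑ g ∈ G, mm g p
  let c : ℕ := ∑ g ∈ G, cc g
  have hm : {p | m p ≠ 0}.Finite := by
    refine (G.finite_toSet.biUnion (fun g _ => hfin g)).subset ?_
    intro p hp
    obtain ⟨g, hg, h⟩ := Finset.exists_ne_zero_of_sum_ne_zero hp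
    exact Set.mem_biUnion hg h
  have hW : ∀ g ∈ G, Win S m c (E.χ (gen g)) := fun g hg =>
    Win_mono S (fun p => Finset.single_le_sum (f := fun g => mm g p) (fun _ _ => Nat.zero_le _) hg)
      (Finset.single_le_sum (f := cc) (fun _ _ => Nat.zero_le _) hg) (hwin g)
  have hword : ∀ x ∈ Submonoid.closure (gen '' (G : Set D)), TT S m c (E.χ x) := by
    intro x hx
    induction hx using Submonoid.closure_induction_left with
    | one =>
      rw [map_one]
      exact TT_one S m c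
    | mul_left x hx y hy ih =>
      obtain ⟨g, hg, rfl⟩ := hx
      rw [map_mul]
      exact TT_mul S hm c (hord g hg) (hW g hg) ih
  have hall : ∀ x ∈ A, TT S m c (E.χ x) := by
    intro x hx
    have h1 : A ≤ Algebra.adjoin F (gen '' (G : Set D)) := by
      rw [← hG]
      apply Algebra.adjoin_le
      intro g hg
      have h2 : g = gen g + algebraMap F D (r g) := (sub_add_cancel _ _).symm
      rw [h2]
      exact Subalgebra.add_mem _ (Algebra.subset_adjoin ⟨g, hg, rfl⟩)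
        (Subalgebra.algebraMap_mem _ _)
    have h2 : x ∈ Submodule.span F (Submonoid.closure (gen '' (G : Set D)) : Set D) := by
      rw [← Algebra.adjoin_eq_span]
      exact h1 hx
    clear hx
    induction h2 using Submodule.span_induction with
    | mem x hx => exact hword x hx
    | zero =>
      rw [map_zero]
      exact TT_zero S m c
    | add x y _ _ hx hy =>
      rw [map_add]
      exact TT_add S m c hx hy
    | smul a x _ hx =>
      rw [Algebra.smul_def, map_mul, E.const]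
      exact TT_const S m c a hx
  exact ⟨BB S m c, BB_fwd S hm c, fun x hx => (hall x hx).2.2⟩

end Pool.Agent.Q2N.H32
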